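import Pool.Agent.Work.MP_91555f_an.Assembly

/-!
# Null compact planar sets are mapped by contractions close to the identity into finitely many segments
-/

open MeasureTheory Set Metric

namespace Pool.Agent.Results.MP_91555f_an.NullContraction

/-- Positive answer to Q1. For every compact planar set `C` of Lebesgue measure zero and every `ε > 0` there is a
`1`-Lipschitz map `f` of the Euclidean plane, moving no point of `C` by more than `ε`, with `f '' C` contained in a
finite union of segments. -/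
theorem result (C : Set (EuclideanSpace ℝ (Fin 2))) (hC : IsCompact C) (hC0 : volume C = 0) (ε : ℝ) (hε : 0 < ε) :
    ∃ f : EuclideanSpace ℝ (Fin 2) → EuclideanSpace ℝ (Fin 2), LipschitzWith 1 f ∧
      (∀ x ∈ C, ‖f x - x‖ ≤ ε) ∧
      ∃ P : Set (EuclideanSpace ℝ (Fin 2) × EuclideanSpace ℝ (Fin 2)), P.Finite ∧
        f '' C ⊆ ⋃ p ∈ P, segment ℝ p.1 p.2 := by
  set e : ℂ ≃ₗᵢ[ℝ] EuclideanSpace ℝ (Fin 2) := Complex.orthonormalBasisOneI.repr with he
  have hmp : MeasurePreserving e volume volume := e.measurePreserving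
  have hC' : IsCompact (e ⁻¹' C) := by
    rw [← e.coe_toHomeomorph]
    exact e.toHomeomorph.isCompact_preimage.2 hC
  have hC'0 : volume (e ⁻¹' C) = 0 := by
    rw [hmp.measure_preimage hC.measurableSet.nullMeasurableSet]; exact hC0
  obtain ⟨f, h1, h2, P, hP, h3⟩ := NullContr.main_complex (e ⁻¹' C) hC' hC'0 hε
  refine ⟨fun x => e (f (e.symm x)), ?_, ?_, (fun p : ℂ × ℂ => (e p.1, e p.2)) '' P, hP.image _, ?_⟩
  · refine LipschitzWith.of_dist_le_mul fun x y => ?_
    rw [NNReal.coe_one, one_mul, e.dist_map, dist_eq_norm, ← e.symm.dist_map x y, dist_eq_norm]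
    exact h1 _ _
  · intro x hx
    have e1 : e (f (e.symm x)) - x = e (f (e.symm x) - e.symm x) := by
      rw [map_sub, e.apply_symm_apply]
    rw [e1, e.norm_map]
    exact h2 _ (by simpa using hx)
  · rintro _ ⟨x, hx, rfl⟩
    obtain ⟨p, hp, hpx⟩ := mem_iUnion₂.1 (h3 ⟨e.symm x, by simpa using hx, rfl⟩)
    refine mem_iUnion₂.2 ⟨_, ⟨p, hp, rfl⟩, ?_⟩
    obtain ⟨a, b, ha, hb, hab, h⟩ := hpx
    exact ⟨a, b, ha, hb, hab, by simp only; rw [← h, map_add, map_smul, map_smul]⟩

end Pool.Agent.Results.MP_91555f_an.NullContraction
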